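import Pool.Agent.U892.PD.Stm

/-!
# Project PD, package NORM (helper843): normalisation of the involution
-/

set_option autoImplicit false

open Filter Topology Set
open scoped ContDiff

namespace Pool.Agent.U843.PD

open Pool.Agent.U892.PD

noncomputable section

/-- the linear part of the change of `(a, b)` -/
def M (ξ k : ℝ) : ℝ × ℝ →L[ℝ] ℝ × ℝ :=
  (((1 - k * ξ) • ContinuousLinearMap.fst ℝ ℝ ℝ) - ξ • ContinuousLinearMap.snd ℝ ℝ ℝ).prod
    (k • ContinuousLinearMap.fst ℝ ℝ ℝ + ContinuousLinearMap.snd ℝ ℝ ℝ)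

lemma M_fst (ξ k : ℝ) : M ξ k (1, 0) = (1 - k * ξ, k) := by simp [M]

lemma M_snd (ξ k : ℝ) : M ξ k (0, 1) = (-ξ, 1) := by simp [M]

/-- the change of `(a, b)` -/
def L (z : ℝ × ℝ) (ξ k : ℝ) (w : ℝ × ℝ) : ℝ × ℝ := z + M ξ k w

lemma hasL (z : ℝ × ℝ) (ξ k : ℝ) (w : ℝ × ℝ) : HasFDerivAt (L z ξ k) (M ξ k) w :=
  (M ξ k).hasFDerivAt.const_add z

lemma L0 (z : ℝ × ℝ) (ξ k : ℝ) : L z ξ k (0, 0) = z := by
  have h : M ξ k (0, 0) = 0 := by simp [M]
  rw [L, h, add_zero]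

lemma tendsto_L (z : ℝ × ℝ) (ξ k : ℝ) : Tendsto (L z ξ k) (𝓝 (0, 0)) (𝓝 z) := by
  have h := (hasL z ξ k (0, 0)).continuousAt
  rw [ContinuousAt, L0] at h
  exact h

lemma contDiff_L (z : ℝ × ℝ) (ξ k : ℝ) : ContDiff ℝ 20 (L z ξ k) :=
  contDiff_const.add (M ξ k).contDiff

lemma split (D : ℝ × ℝ →L[ℝ] ℝ) (p q : ℝ) : D (p, q) = p * D (1, 0) + q * D (0, 1) := by
  have h : ((p, q) : ℝ × ℝ) = p • ((1, 0) : ℝ × ℝ) + q • ((0, 1) : ℝ × ℝ) := by simp
  rw [h, map_add, map_smul, map_smul, smul_eq_mul, smul_eq_mul]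

lemma da_comp {f : ℝ × ℝ → ℝ} {z : ℝ × ℝ} {ξ k : ℝ} {w : ℝ × ℝ}
    (hf : DifferentiableAt ℝ f (L z ξ k w)) :
    da (fun w => f (L z ξ k w)) w = (1 - k * ξ) * da f (L z ξ k w) + k * db f (L z ξ k w) := by
  have h := (hf.hasFDerivAt.comp w (hasL z ξ k w)).fderiv
  unfold da db
  change fderiv ℝ (f ∘ L z ξ k) w (1, 0) = _
  rw [h, ContinuousLinearMap.comp_apply, M_fst, split]

lemma db_comp {f : ℝ × ℝ → ℝ} {z : ℝ × ℝ} {ξ k : ℝ} {w : ℝ × ℝ}
    (hf : DifferentiableAt ℝ f (L z ξ k w)) :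
    db (fun w => f (L z ξ k w)) w = -ξ * da f (L z ξ k w) + db f (L z ξ k w) := by
  have h := (hf.hasFDerivAt.comp w (hasL z ξ k w)).fderiv
  unfold da db
  change fderiv ℝ (f ∘ L z ξ k) w (0, 1) = _
  rw [h, ContinuousLinearMap.comp_apply, M_snd, split, one_mul]

lemma da_mul {f g : ℝ × ℝ → ℝ} {w : ℝ × ℝ} (hf : DifferentiableAt ℝ f w)
    (hg : DifferentiableAt ℝ g w) :
    da (fun w => f w * g w) w = f w * da g w + g w * da f w := by
  have h := (hf.hasFDerivAt.mul hg.hasFDerivAt).fderiv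
  unfold da
  change fderiv ℝ (f * g) w (1, 0) = _
  rw [h]
  simp

lemma da_congr {f g : ℝ × ℝ → ℝ} {w : ℝ × ℝ} (h : f =ᶠ[𝓝 w] g) : da f w = da g w := by
  unfold da
  rw [h.fderiv_eq]

lemma contDiffAt_da {f : ℝ × ℝ → ℝ} {z : ℝ × ℝ} (hf : ContDiffAt ℝ 20 f z) :
    ContDiffAt ℝ 19 (da f) z :=
  (hf.fderiv_right (m := 19) (by norm_num)).clm_apply contDiffAt_const

lemma diffAt_da {f : ℝ × ℝ → ℝ} {z : ℝ × ℝ} (hf : ContDiffAt ℝ 20 f z) :
    DifferentiableAt ℝ (da f) z := (contDiffAt_da hf).differentiableAt (by norm_num)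

lemma da_da_add {f g : ℝ × ℝ → ℝ} {z : ℝ × ℝ} (hf : ContDiffAt ℝ 20 f z)
    (hg : ContDiffAt ℝ 20 g z) :
    da (da (fun w => f w + g w)) z = da (da f) z + da (da g) z := by
  have h1 : da (fun w => f w + g w) =ᶠ[𝓝 z] fun w => da f w + da g w := by
    filter_upwards [hf.eventually (by simp), hg.eventually (by simp)] with w h2 h3
    have h4 := ((h2.differentiableAt (by norm_num)).hasFDerivAt.add
      (h3.differentiableAt (by norm_num)).hasFDerivAt).fderiv
    unfold da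
    change fderiv ℝ (f + g) w (1, 0) = _
    rw [h4]
    simp
  rw [da_congr h1]
  have h4 := ((diffAt_da hf).hasFDerivAt.add (diffAt_da hg).hasFDerivAt).fderiv
  change fderiv ℝ (da f + da g) z (1, 0) = _
  rw [h4]
  rfl

/-- symmetry of the second derivatives -/
lemma symm_da {f : ℝ × ℝ → ℝ} {z : ℝ × ℝ} (hf : ContDiffAt ℝ 20 f z) :
    db (da f) z = da (db f) z := by
  have hs : IsSymmSndFDerivAt ℝ f z := hf.isSymmSndFDerivAt (by
    simp only [minSmoothness_of_isRCLikeNormedField]; norm_num)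
  have hd : DifferentiableAt ℝ (fderiv ℝ f) z :=
    (hf.fderiv_right (m := 19) (by norm_num)).differentiableAt (by norm_num)
  have h1 : ∀ v w : ℝ × ℝ, fderiv ℝ (fun p => fderiv ℝ f p v) z w
      = fderiv ℝ (fderiv ℝ f) z w v := by
    intro v w
    have h2 := (hd.hasFDerivAt.clm_apply (hasFDerivAt_const v z)).fderiv
    rw [h2]
    simp
  unfold da db
  rw [h1, h1]
  exact hs _ _

/-- the new function -/
def tl (x : ℝ × ℝ → ℝ) (z : ℝ × ℝ) (ξ k : ℝ) (w : ℝ × ℝ) : ℝ :=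
  (x (L z ξ k w) - ξ) / (1 + k * (x (L z ξ k w) - ξ))

section one

variable {x : ℝ × ℝ → ℝ} {z : ℝ × ℝ} {ξ k : ℝ}

lemma cd_comp (hx : ContDiffAt ℝ 20 x z) : ContDiffAt ℝ 20 (fun w => x (L z ξ k w)) (0, 0) := by
  have h : ContDiffAt ℝ 20 x (L z ξ k (0, 0)) := by rw [L0]; exact hx
  exact h.comp (0, 0) (contDiff_L z ξ k).contDiffAt

lemma cd_tl (hx : ContDiffAt ℝ 20 x z) (h0 : 1 + k * (x z - ξ) ≠ 0) :
    ContDiffAt ℝ 20 (tl x z ξ k) (0, 0) := by
  have h1 : ContDiffAt ℝ 20 (fun w => x (L z ξ k w) - ξ) (0, 0) :=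
    (cd_comp hx).sub contDiffAt_const
  refine h1.div (contDiffAt_const.add (contDiffAt_const.mul h1)) ?_
  rw [L0]; exact h0

lemma ev_ne (hx : ContDiffAt ℝ 20 x z) (h0 : 1 + k * (x z - ξ) ≠ 0) :
    ∀ᶠ w in 𝓝 ((0, 0) : ℝ × ℝ), 1 + k * (x (L z ξ k w) - ξ) ≠ 0 := by
  have h1 : ContinuousAt (fun w => 1 + k * (x (L z ξ k w) - ξ)) ((0, 0) : ℝ × ℝ) := by
    have h2 : ContinuousAt (fun w => x (L z ξ k w)) ((0, 0) : ℝ × ℝ) :=
      (cd_comp (ξ := ξ) (k := k) hx).continuousAt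
    exact continuousAt_const.add (continuousAt_const.mul (h2.sub continuousAt_const))
  refine h1.eventually_ne ?_
  rw [L0]; exact h0

/-- the first derivatives of the new function -/
lemma ev_da (hx : ContDiffAt ℝ 20 x z) (hb : ∀ᶠ w in 𝓝 z, db x w = x w * da x w)
    (h0 : 1 + k * (x z - ξ) ≠ 0) :
    ∀ᶠ w in 𝓝 ((0, 0) : ℝ × ℝ),
      da (tl x z ξ k) w * (1 + k * (x (L z ξ k w) - ξ)) = da x (L z ξ k w) ∧
      db (tl x z ξ k) w = tl x z ξ k w * da (tl x z ξ k) w := by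
  filter_upwards [ev_ne hx h0, (tendsto_L z ξ k).eventually hb,
    (tendsto_L z ξ k).eventually (hx.eventually (by simp))] with w h1 h2 h3
  have hd : DifferentiableAt ℝ x (L z ξ k w) := h3.differentiableAt (by norm_num)
  set X : ℝ := x (L z ξ k w) - ξ with hX
  have hX' : HasFDerivAt (fun w => x (L z ξ k w) - ξ) (fderiv ℝ (fun w => x (L z ξ k w)) w) w :=
    ((hd.comp w (hasL z ξ k w).differentiableAt).hasFDerivAt).sub_const ξ
  have hh : HasDerivAt (fun t : ℝ => t / (1 + k * t)) (1 / (1 + k * X) ^ 2) X := by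
    have h5 : HasDerivAt (fun t : ℝ => 1 + k * t) k X := by
      simpa using ((hasDerivAt_id X).const_mul k).const_add 1
    have h6 : HasDerivAt (fun t : ℝ => t / (1 + k * t))
        ((1 * (1 + k * X) - X * k) / (1 + k * X) ^ 2) X := (hasDerivAt_id X).div h5 h1
    convert h6 using 1
    congr 1
    ring
  have h7 : HasFDerivAt (tl x z ξ k)
      ((1 / (1 + k * X) ^ 2) • fderiv ℝ (fun w => x (L z ξ k w)) w) w :=
    HasDerivAt.comp_hasFDerivAt (h₂ := fun t : ℝ => t / (1 + k * t)) w hh hX'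
  have ea : da (tl x z ξ k) w = 1 / (1 + k * X) ^ 2 * da (fun w => x (L z ξ k w)) w := by
    unfold da; rw [h7.fderiv]; rfl
  have eb : db (tl x z ξ k) w = 1 / (1 + k * X) ^ 2 * db (fun w => x (L z ξ k w)) w := by
    unfold db; rw [h7.fderiv]; rfl
  have hxX : x (L z ξ k w) = X + ξ := by rw [hX]; ring
  rw [da_comp hd, h2, hxX] at ea
  rw [db_comp hd, h2, hxX] at eb
  have ht : tl x z ξ k w = X / (1 + k * X) := rfl
  constructor
  · rw [ea]
    field_simp
    ring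
  · rw [ea, eb, ht]
    field_simp
    ring

/-- the second derivative is preserved -/
lemma da_da_tl (hx : ContDiffAt ℝ 20 x z) (hb : ∀ᶠ w in 𝓝 z, db x w = x w * da x w)
    (h0 : 1 + k * (x z - ξ) ≠ 0) : da (da (tl x z ξ k)) (0, 0) = da (da x) z := by
  have hev := ev_da hx hb h0
  have e1 : (fun w => da (tl x z ξ k) w * (1 + k * (x (L z ξ k w) - ξ)))
      =ᶠ[𝓝 (0, 0)] fun w => da x (L z ξ k w) := hev.mono fun w h => h.1
  have e2 := da_congr e1
  have hdx : DifferentiableAt ℝ (da x) z := diffAt_da hx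
  have hd0 : DifferentiableAt ℝ (fun w => x (L z ξ k w)) (0, 0) :=
    (cd_comp hx).differentiableAt (by norm_num)
  have hq : DifferentiableAt ℝ (fun w => 1 + k * (x (L z ξ k w) - ξ)) (0, 0) :=
    (differentiableAt_const _).add ((differentiableAt_const _).mul (hd0.sub_const ξ))
  have e2' := da_mul (diffAt_da (cd_tl hx h0)) hq
  rw [e2', da_comp (by rw [L0]; exact hdx), L0] at e2
  have e3 : da (fun w => 1 + k * (x (L z ξ k w) - ξ)) (0, 0)
      = k * da (fun w => x (L z ξ k w)) (0, 0) := by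
    have h1 := ((((hd0.hasFDerivAt).sub_const ξ).const_mul k).const_add 1).fderiv
    unfold da
    rw [h1]
    rfl
  have hdz : DifferentiableAt ℝ x z := hx.differentiableAt (by norm_num)
  rw [e3, da_comp (by rw [L0]; exact hdz), L0] at e2
  have e4 : db x z = x z * da x z := hb.self_of_nhds
  have e5 : da (tl x z ξ k) (0, 0) * (1 + k * (x z - ξ)) = da x z := by
    have := hev.self_of_nhds.1
    rwa [L0] at this
  have e6 : db (da x) z = x z * da (da x) z + da x z * da x z := by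
    rw [symm_da hx, da_congr hb, da_mul hdz hdx]
  rw [e4, e6] at e2
  have e7 : (1 + k * (x z - ξ)) * (da (da (tl x z ξ k)) (0, 0) - da (da x) z) = 0 := by
    linear_combination e2 - k * da x z * e5
  rcases mul_eq_zero.mp e7 with h | h
  · exact absurd h h0
  · linarith

end one

theorem t_NORM : S_TN → S_T := by
  intro hTN x y φ ψ z hD
  -- the constants
  obtain ⟨f, hf⟩ : ∃ f : ℝ, f = φ z := ⟨_, rfl⟩
  obtain ⟨g, hg⟩ : ∃ g : ℝ, g = ψ z := ⟨_, rfl⟩
  have hnd : f * g < 1 := by rw [hf, hg]; exact hD.nd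
  obtain ⟨s, hs0, hs2⟩ : ∃ s : ℝ, 0 < s ∧ s ^ 2 = 1 - f * g :=
    ⟨Real.sqrt (1 - f * g), Real.sqrt_pos.mpr (by linarith), Real.sq_sqrt (by linarith)⟩
  have h1s : (1 + s) ≠ 0 := by positivity
  have hsne : s ≠ 0 := hs0.ne'
  obtain ⟨ξ, hξ1⟩ : ∃ ξ : ℝ, ξ * (1 + s) = g := ⟨g / (1 + s), by field_simp⟩
  have hfξ : 1 - f * ξ = s := by
    have h1 : (1 - f * ξ - s) * (1 + s) = 0 := by
      linear_combination (-1) * hs2 - f * hξ1
    rcases mul_eq_zero.mp h1 with h | h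
    · linarith
    · exact absurd h h1s
  have hroot : f * ξ ^ 2 - 2 * ξ + g = 0 := by
    rw [← hξ1]
    linear_combination (-ξ) * hfξ
  obtain ⟨k, hk⟩ : ∃ k : ℝ, k = -(f / s) / 2 := ⟨_, rfl⟩
  have hks : 2 * k * s = -f := by rw [hk]; field_simp
  -- the relations at the point
  have hrel0 : ∀ j, (x j z - ξ) + (y j z - ξ) = -2 * k * ((x j z - ξ) * (y j z - ξ)) := by
    intro j
    have h1 := (hD.rel j).self_of_nhds
    rw [← hf, ← hg] at h1
    have h2 : s * ((x j z - ξ) + (y j z - ξ)) = f * ((x j z - ξ) * (y j z - ξ)) := by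
      linear_combination h1 + hroot - ((x j z - ξ) + (y j z - ξ)) * hfξ
    apply mul_left_cancel₀ hsne
    linear_combination h2 + (x j z - ξ) * (y j z - ξ) * hks
  have hden : ∀ j, (1 + k * (x j z - ξ) ≠ 0) ∧ (1 + k * (y j z - ξ) ≠ 0) := by
    intro j
    have h1 := hrel0 j
    have h2 := hD.xy j
    constructor
    · intro h3
      apply h2
      have hk0 : k ≠ 0 := by
        rintro h4
        rw [h4] at h3; norm_num at h3
      have h5 : k * ((x j z - ξ) - (y j z - ξ)) = 0 := by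
        linear_combination k * h1 - 2 * k * (y j z - ξ) * h3
      rcases mul_eq_zero.mp h5 with h | h
      · exact absurd h hk0
      · linarith
    · intro h3
      apply h2
      have hk0 : k ≠ 0 := by
        rintro h4
        rw [h4] at h3; norm_num at h3
      have h5 : k * ((y j z - ξ) - (x j z - ξ)) = 0 := by
        linear_combination k * h1 - 2 * k * (x j z - ξ) * h3
      rcases mul_eq_zero.mp h5 with h | h
      · exact absurd h hk0
      · linarith
  -- the new coefficients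
  let φ1 : ℝ × ℝ → ℝ := fun w => φ (L z ξ k w) / (1 - φ (L z ξ k w) * ξ)
  let ψ1 : ℝ × ℝ → ℝ := fun w =>
    (φ (L z ξ k w) * ξ ^ 2 - 2 * ξ + ψ (L z ξ k w)) / (1 - φ (L z ξ k w) * ξ)
  have c1 : ContDiffAt ℝ 20 (fun w => φ (L z ξ k w)) (0, 0) := cd_comp hD.sφ
  have c2 : ContDiffAt ℝ 20 (fun w => ψ (L z ξ k w)) (0, 0) := cd_comp hD.sψ
  have cden : ContDiffAt ℝ 20 (fun w => 1 - φ (L z ξ k w) * ξ) (0, 0) :=
    contDiffAt_const.sub (c1.mul contDiffAt_const)
  have hden0 : 1 - φ (L z ξ k (0, 0)) * ξ ≠ 0 := by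
    rw [L0, ← hf, hfξ]; exact hsne
  have cφ1 : ContDiffAt ℝ 20 φ1 (0, 0) := c1.div cden hden0
  have cψ1 : ContDiffAt ℝ 20 ψ1 (0, 0) :=
    (((c1.mul contDiffAt_const).sub contDiffAt_const).add c2).div cden hden0
  have hψ10 : ψ1 (0, 0) = 0 := by
    simp only [ψ1]
    rw [L0, ← hf, ← hg, hroot, zero_div]
  have hφ10 : φ1 (0, 0) = -2 * k := by
    simp only [φ1]
    rw [L0, ← hf, hfξ, hk]
    ring
  let φt : ℝ × ℝ → ℝ := fun w => (φ1 w + 2 * k + k ^ 2 * ψ1 w) / (1 + k * ψ1 w)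
  let ψt : ℝ × ℝ → ℝ := fun w => ψ1 w / (1 + k * ψ1 w)
  have cd2 : ContDiffAt ℝ 20 (fun w => 1 + k * ψ1 w) (0, 0) :=
    contDiffAt_const.add (contDiffAt_const.mul cψ1)
  have hd20 : 1 + k * ψ1 (0, 0) ≠ 0 := by rw [hψ10]; norm_num
  have cφt : ContDiffAt ℝ 20 φt (0, 0) :=
    ((cφ1.add contDiffAt_const).add (contDiffAt_const.mul cψ1)).div cd2 hd20
  have cψt : ContDiffAt ℝ 20 ψt (0, 0) := cψ1.div cd2 hd20
  have hφt0 : φt (0, 0) = 0 := by
    simp only [φt]
    rw [hφ10, hψ10]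
    ring
  have hψt0 : ψt (0, 0) = 0 := by
    simp only [ψt]
    rw [hψ10, zero_div]
  have hval : ∀ (u : ℝ × ℝ → ℝ), tl u z ξ k (0, 0) = (u z - ξ) / (1 + k * (u z - ξ)) := by
    intro u
    rw [tl, L0]
  have hDat : Dat (fun j => tl (x j) z ξ k) (fun j => tl (y j) z ξ k) φt ψt (0, 0) := by
    refine ⟨fun j => cd_tl (hD.sx j) (hden j).1, fun j => cd_tl (hD.sy j) (hden j).2, cφt, cψt,
      fun j => ?_, fun j => ?_, fun j => ?_, fun j => ?_, fun i j hij => ?_, ?_⟩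
    · exact (ev_da (hD.sx j) (hD.bx j) (hden j).1).mono fun w h => h.2
    · exact (ev_da (hD.sy j) (hD.bY j) (hden j).2).mono fun w h => h.2
    · have e1 := cden.continuousAt.eventually_ne hden0
      have e2 := cd2.continuousAt.eventually_ne hd20
      filter_upwards [ev_ne (hD.sx j) (hden j).1, ev_ne (hD.sy j) (hden j).2, e1, e2,
        (tendsto_L z ξ k).eventually (hD.rel j)] with w h1 h2 h3 h4 h5
      -- the relation for X, Y
      obtain ⟨X, hX⟩ : ∃ X : ℝ, X = x j (L z ξ k w) - ξ := ⟨_, rfl⟩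
      obtain ⟨Y, hY⟩ : ∃ Y : ℝ, Y = y j (L z ξ k w) - ξ := ⟨_, rfl⟩
      have hx' : x j (L z ξ k w) = X + ξ := by rw [hX]; ring
      have hy' : y j (L z ξ k w) = Y + ξ := by rw [hY]; ring
      rw [hx', hy'] at h5
      rw [← hX] at h1
      rw [← hY] at h2
      have e3 : X + Y = φ1 w * (X * Y) + ψ1 w := by
        simp only [φ1, ψ1]
        field_simp
        linear_combination h5
      change tl (x j) z ξ k w + tl (y j) z ξ k w
        = φt w * (tl (x j) z ξ k w * tl (y j) z ξ k w) + ψt w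
      simp only [tl, φt, ψt]
      rw [← hX, ← hY]
      generalize φ1 w = p at e3 ⊢
      generalize ψ1 w = q at e3 h4 ⊢
      rw [div_add_div _ _ h1 h2, div_mul_div_comm, div_mul_div_comm, div_add_div _ _
        (mul_ne_zero h4 (mul_ne_zero h1 h2)) h4, div_eq_div_iff (mul_ne_zero h1 h2)
        (mul_ne_zero (mul_ne_zero h4 (mul_ne_zero h1 h2)) h4)]
      linear_combination ((1 + k * X) * (1 + k * Y) * (1 + k * q)) * e3
    · intro h
      simp only [hval] at h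
      rw [div_eq_div_iff (hden j).1 (hden j).2] at h
      exact hD.xy j (by linear_combination h)
    · intro h
      simp only [hval] at h
      rw [div_mul_div_comm, div_mul_div_comm,
        div_eq_div_iff (mul_ne_zero (hden i).1 (hden i).2) (mul_ne_zero (hden j).1 (hden j).2)] at h
      have h1 := hrel0 i
      have h2 := hrel0 j
      have h3 : (x i z - ξ) * (y i z - ξ) = (x j z - ξ) * (y j z - ξ) := by
        linear_combination h
          - k * (x i z - ξ) * (y i z - ξ) * h2 + k * (x j z - ξ) * (y j z - ξ) * h1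
      have h4 := (hD.rel i).self_of_nhds
      have h5 := (hD.rel j).self_of_nhds
      rw [← hf, ← hg] at h4 h5
      refine hD.ne i j hij ?_
      apply mul_left_cancel₀ hsne
      rw [← hfξ]
      linear_combination h3 + ξ * h4 - ξ * h5
    · rw [hφt0, zero_mul]; exact one_pos
  intro j
  have key := hTN _ _ _ _ hDat hφt0 hψt0 j
  rw [da_da_add (cd_tl (hD.sx j) (hden j).1) (cd_tl (hD.sy j) (hden j).2),
    da_da_tl (hD.sx j) (hD.bx j) (hden j).1, da_da_tl (hD.sy j) (hD.bY j) (hden j).2] at key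
  rw [da_da_add (hD.sx j) (hD.sy j)]
  exact key

end

end Pool.Agent.U843.PD
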